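import Mathlib
import Pool.Agent.Lib.MP_86e60f_al.Qd.Main
import Pool.Agent.Lib.MP_86e60f_al.HW.Pub2

set_option autoImplicit false

open IsLocalRing Pool.Agent.Lib.MP_86e60f_al Pool.Agent.Lib.MP_86e60f_al.HW

namespace Pool.Agent.Results.MP_86e60f_al.AnSurfaces

/-- Condition `(C_2)` over a complete hypersurface domain `R = S / (f)` of dimension two for the
modules, of any rank, over a complete intersection domain `R / (g)` whose ideal `(f, g)` contains
an element `x y + c z ^ 2 + (terms of order at least three)`, that is, a curve lying on an `A_n`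
surface singularity. -/
theorem result {S : Type} [CommRing S] [IsRegularLocalRing S] [IsAdicComplete (maximalIdeal S) S]
    (x y z : S) (hreg : RingTheory.Sequence.IsRegular S [x, y, z])
    (hmax : maximalIdeal S = Ideal.span {x, y, z}) (f g : S) (hf : f ∈ maximalIdeal S ^ 2)
    (hg : g ∈ maximalIdeal S ^ 2) (hf0 : RingTheory.Sequence.IsRegular S [f])
    (hq : x * y ∈ Ideal.span {f, g, z ^ 2} ⊔ maximalIdeal S ^ 3)
    (R : Type) [CommRing R] [IsLocalRing R] [IsDomain R] (π : S →+* R)
    (hπ : Function.Surjective π) (hker : RingHom.ker π = Ideal.span {f}) (hp : Prime (π g))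
    (M : Type) [AddCommGroup M] [Module R M] [Module (R ⧸ Ideal.span {π g}) M]
    [IsScalarTower R (R ⧸ Ideal.span {π g}) M] [Module.Finite R M]
    (hM : IsCMOfCodim R M 1) (hT : TensorExtCM R M) :
    Module.Free (R ⧸ Ideal.span {π g}) M ∧
      CategoryTheory.projectiveDimension (ModuleCat.of R M) ≠ ⊤ :=
  Qd.c2_quad hreg hmax hf hf0 π hπ hker hg hp hq M hM hT

end Pool.Agent.Results.MP_86e60f_al.AnSurfaces
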