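import Mathlib
import Pool.Agent.Lib.MP_86e60f_al.Concrete

set_option autoImplicit false

open CategoryTheory
open scoped TensorProduct
open Pool.Agent.Lib.MP_86e60f_al

namespace Pool.Agent.Results.MP_86e60f_al.Counterexample

/-- For every `c ≥ 2` condition `(C_c)` fails for some local hypersurface domain `R`: there is a
finitely generated module `M` such that `M` and `M ⊗ Ext^(c-1)(M, R)` are Cohen-Macaulay of
codimension `c - 1` while `pd M = ∞`. Moreover `M` can be taken of any dimension `d ≥ 1` and of
finite projective dimension at each of its associated primes. -/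
theorem result (c d : ℕ) (hc : 2 ≤ c) (hd : 1 ≤ d) :
    ∃ (R : Type) (_ : CommRing R) (_ : IsLocalRing R) (_ : IsDomain R),
      IsLocalHypersurface R ∧
      ∃ M : ModuleCat.{0} R, Module.Finite R M ∧
        IsCMOfCodim R M (c - 1) ∧
        IsCMOfCodim R (M ⊗[R] Abelian.Ext.{0} M (ModuleCat.of R R) (c - 1)) (c - 1) ∧
        projectiveDimension M = ⊤ ∧
        Module.supportDim R M = d ∧
        ∀ q : PrimeSpectrum R, q.asIdeal ∈ associatedPrimes R M →
          projectiveDimension (M.localizedModule q.asIdeal.primeCompl) ≠ ⊤ := by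
  obtain ⟨a, rfl⟩ : ∃ a, c = a + 2 := ⟨c - 2, by omega⟩
  obtain ⟨b, rfl⟩ : ∃ b, d = b + 1 := ⟨d - 1, by omega⟩
  let σ := Fin 3 ⊕ (Fin a ⊕ Fin b)
  let W : List σ := (List.finRange a).map (fun i => Sum.inr (Sum.inl i))
  let V : List σ := (List.finRange b).map (fun i => Sum.inr (Sum.inr i))
  have h := concrete (σ := σ) (Sum.inl 0) (Sum.inl 2) (Sum.inl 1) W V (by
    have hW : W.Nodup := (List.nodup_finRange a).map (fun i j h => Sum.inl.inj (Sum.inr.inj h))
    have hV : V.Nodup := (List.nodup_finRange b).map (fun i j h => Sum.inr.inj (Sum.inr.inj h))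
    simp only [List.nodup_cons, List.mem_cons, List.mem_append, List.nodup_append, hW, hV]
    simp [W, V, σ]) (by
    rintro (i | i | i)
    · fin_cases i <;> simp
    · simp [W]
    · simp [V])
  have hW : W.length = a := by simp [W]
  have hV : V.length = b := by simp [V]
  rw [hW, hV] at h
  exact h

end Pool.Agent.Results.MP_86e60f_al.Counterexample
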