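import Mathlib
import Pool.Agent.Lib.MP_86e60f_al.Fp.Main

set_option autoImplicit false

open CategoryTheory Pool.Agent.Lib.MP_86e60f_al
open scoped TensorProduct

namespace Pool.Agent.Results.MP_86e60f_al.FreeSemigroups

/-- Condition `(C_c)`, for every `c ≥ 2`, for the modules of any rank over a quotient
`R / (rs) = k[[H]]` of a local hypersurface domain `R` by a regular sequence of length `c - 1`,
where `k` is any field and `H` is the semigroup generated by a free (telescopic)
sequence `n 0, …, n g`. -/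
theorem result {k : Type} [Field k] (g : ℕ) (n : ℕ → ℕ) (hn : 0 < n 0)
    (hfree : ∀ i < g, (Finset.range (i + 1)).gcd n / (Finset.range (i + 2)).gcd n * n (i + 1) ∈
      AddSubmonoid.closure (n '' Set.Iic i))
    (c : ℕ) (hc : 2 ≤ c) (R : Type) [CommRing R] [IsLocalRing R] [IsDomain R]
    (hR : IsLocalHypersurface R) (rs : List R) (hrs : RingTheory.Sequence.IsRegular R rs)
    (hlen : rs.length + 1 = c) (φ : R →+* PowerSeries k)
    (hker : RingHom.ker φ = Ideal.ofList rs)
    (hφ : ∀ f, f ∈ φ.range ↔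
      ∀ m ∉ AddSubmonoid.closure (n '' Set.Iic g), PowerSeries.coeff m f = 0)
    (M : Type) [AddCommGroup M] [Module R M] [Module (R ⧸ Ideal.ofList rs) M]
    [IsScalarTower R (R ⧸ Ideal.ofList rs) M] [Module.Finite R M]
    (hM : IsCMOfCodim R M (c - 1))
    (hT : IsCMOfCodim R
      (M ⊗[R] Abelian.Ext.{0} (ModuleCat.of R M) (ModuleCat.of R R) (c - 1)) (c - 1)) :
    Module.Free (R ⧸ Ideal.ofList rs) M ∧ projectiveDimension (ModuleCat.of R M) ≠ ⊤ := by
  obtain ⟨S, _, _, f, -, -, ⟨e⟩⟩ := hR
  have : IsNoetherianRing R := isNoetherianRing_of_ringEquiv _ e.symm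
  subst hlen
  exact Fp.cc n hn.ne' g hfree hrs φ hker hφ M hM hT

end Pool.Agent.Results.MP_86e60f_al.FreeSemigroups
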