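import Mathlib
import Pool.Agent.Lib.MP_86e60f_al.HW.Main2
import Pool.Agent.Lib.MP_86e60f_al.HW.GNe
import Pool.Agent.Lib.MP_86e60f_al.HW.Pub2

set_option autoImplicit false

open Pool.Agent.Lib.MP_86e60f_al.HW

namespace Pool.Agent.Results.MP_86e60f_al.IdealCase

/-- Condition `(C_2)` for regular ideals of reduced weighted homogeneous complete intersection
curves lying on a hypersurface domain of dimension two. -/
theorem result {k : Type} [Field k] (w : Fin 3 → ℤ) (hw : ∀ l, 0 < w l)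
    (f g y z : MvPolynomial (Fin 3) k) (d e m n : ℤ) (hd : 0 < d) (he : 0 < e) (hm : 0 < m)
    (hmn : IsCoprime m n) (hf : f.IsWeightedHomogeneous w d) (hg : g.IsWeightedHomogeneous w e)
    (hy : y.IsWeightedHomogeneous w m) (hz : z.IsWeightedHomogeneous w n)
    (hry : RingTheory.Sequence.IsRegular (MvPolynomial (Fin 3) k) [f, g, y])
    (hrz : RingTheory.Sequence.IsRegular (MvPolynomial (Fin 3) k) [f, g, z])
    (hfin : FiniteDimensional k (MvPolynomial (Fin 3) k ⧸ Ideal.span {f, g, y}))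
    (R : Type) [CommRing R] [IsLocalRing R] [IsDomain R] (π : MvPowerSeries (Fin 3) k →+* R)
    (hπ : Function.Surjective π)
    (hker : RingHom.ker π = Ideal.span {(f : MvPowerSeries (Fin 3) k)})
    (P : Ideal R) (hP : P = Ideal.span {π g}) [IsReduced (R ⧸ P)]
    (I : Ideal (R ⧸ P)) (hI : ∃ r ∈ I, IsRegular r) (h : TensorExtCM R I) :
    I.IsPrincipal ∧ CategoryTheory.projectiveDimension (ModuleCat.of R I) ≠ ⊤ := by
  obtain ⟨L, _, _, _, D, rfl, rfl, rfl⟩ := sMod k w f g y d e m hw hf hg hy hd he hm hry hfin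
  subst hP
  have hU := D.uni_of y z m n hy hz (reg_of_isRegular hry) (reg_of_isRegular hrz) hmn
  have hg0 : π D.g ≠ 0 := fun h0 => D.g_notMem (hker ▸ h0)
  have hk : RingHom.ker ((Ideal.Quotient.mk (Ideal.span {π D.g})).comp π) =
      Ideal.span {(D.f : MvPowerSeries (Fin 3) k), (D.g : MvPowerSeries (Fin 3) k)} := by
    rw [← RingHom.comap_ker, Ideal.mk_ker, ← Set.image_singleton, ← Ideal.map_span,
      Ideal.comap_map_of_surjective π hπ, ← RingHom.ker_eq_comap_bot, hker, Ideal.span_insert,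
      sup_comm]
  have : Nontrivial (R ⧸ Ideal.span {π D.g}) := by
    refine Ideal.Quotient.nontrivial_iff.2 (Ideal.span_singleton_ne_top fun hu => ?_)
    obtain ⟨u, hu⟩ := hu.exists_right_inv
    obtain ⟨x, rfl⟩ := hπ u
    have h1 : (D.g : MvPowerSeries (Fin 3) k) * x - 1 ∈ RingHom.ker π := by
      rw [RingHom.mem_ker, map_sub, map_mul, hu, map_one, sub_self]
    rw [hker] at h1
    obtain ⟨c, hc⟩ := Ideal.mem_span_singleton'.1 h1
    have h2 := congrArg MvPowerSeries.constantCoeff hc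
    have h3 : MvPowerSeries.constantCoeff (D.f : MvPowerSeries (Fin 3) k) = 0 :=
      MvPolynomial.IsWeightedHomogeneous.coeff_eq_zero D.hf 0 (by rw [map_zero]; exact D.hd.ne)
    have h4 : MvPowerSeries.constantCoeff (D.g : MvPowerSeries (Fin 3) k) = 0 :=
      MvPolynomial.IsWeightedHomogeneous.coeff_eq_zero D.hg 0 (by rw [map_zero]; exact D.he.ne)
    simp [h3, h4] at h2
  obtain ⟨h1, h2, h3⟩ := D.thmI2 hU _ ((Ideal.Quotient.mk (Ideal.span {π D.g})).comp π)
    (Ideal.Quotient.mk_surjective.comp hπ) hk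
  exact sC22 R _ hg0 h1 h2 I hI (h3 I hI) h

end Pool.Agent.Results.MP_86e60f_al.IdealCase
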